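import Pool.Agent.Q27.Walk.Law

/-!
# The vanishing of the probability of a law depends on the generating set

Let `G = S₃ ≀ ℤ` with the generating sets `S = S₃ ∪ {t, t⁻¹}` and `S' = S ∪ {t²}`, and let
`w = [[x⁻¹, y⁻¹], [z, t]]`. For the random walk with uniformly distributed steps in `S` the
probability of `w` tends to zero, and for the random walk with uniformly distributed steps in `S'`
it is bounded from below.

The definitions (`Pool/Agent/Q27/Walk/Basic.lean`): `law μ n` is the `n`-th convolution power of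
the finitely supported measure `μ : G →₀ ℝ`; `IsStep μ`: `μ` is a probability measure whose
support generates `G`, and `μ 1 > 0`; `satProb μ w n` is the probability that `d` independent
`n`-step random walks satisfy `w`.
-/

set_option autoImplicit false

open Filter Topology Q27.Walk
open scoped commutatorElement

namespace Pool.Agent.Results.MP_b50549_al.GeneratingSet

/-- The probability that `G` satisfies `w` with respect to the random walk measure with step
distribution `μ`. -/
noncomputable def Pr {G : Type} [Group G] (μ : G →₀ ℝ) {d : ℕ} (w : FreeGroup (Fin d)) : ℝ :=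
  limsup (fun n => satProb μ w n) atTop

/-- The finite group `S₃`. -/
abbrev L : Type := Equiv.Perm (Fin 3)

/-- The restricted wreath product `L ≀ ℤ`. -/
abbrev G : Type := (Subgroup.closure (Set.range (stepS (L := L))) : Subgroup (Wr L))

theorem mem_lamp (ℓ : L) : lamp 0 ℓ ∈ Subgroup.closure (Set.range (stepS (L := L))) :=
  Subgroup.subset_closure ⟨Sum.inl ℓ, rfl⟩

theorem mem_sh : (sh 1 : Wr L) ∈ Subgroup.closure (Set.range (stepS (L := L))) :=
  Subgroup.subset_closure ⟨Sum.inr 0, rfl⟩

theorem mem_sh' : (sh (-1) : Wr L) ∈ Subgroup.closure (Set.range (stepS (L := L))) :=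
  Subgroup.subset_closure ⟨Sum.inr 1, rfl⟩

theorem mem_sh2 : (sh 2 : Wr L) ∈ Subgroup.closure (Set.range (stepS (L := L))) := by
  have : (sh 2 : Wr L) = sh 1 * sh 1 := by
    ext p
    · simp
    · simp
  rw [this]
  exact mul_mem mem_sh mem_sh

/-- The elements of `S`. -/
def sS (ω : L ⊕ Fin 2) : G := ⟨stepS ω, Subgroup.subset_closure ⟨ω, rfl⟩⟩

/-- The elements of `S'`. -/
def sA (ω : L ⊕ Fin 3) : G := ⟨stepA ω, by
  rcases ω with ℓ | i
  · exact mem_lamp ℓ
  · unfold stepA
    simp only
    split_ifs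
    · exact mem_sh
    · exact mem_sh'
    · exact mem_sh2⟩

theorem closure_sS : Subgroup.closure (Set.range sS) = ⊤ := by
  have h : Set.range sS = ((↑) : G → Wr L) ⁻¹' Set.range (stepS (L := L)) := by
    ext g
    constructor
    · rintro ⟨ω, rfl⟩
      exact ⟨ω, rfl⟩
    · rintro ⟨ω, hω⟩
      exact ⟨ω, Subtype.ext hω⟩
  rw [h]
  exact Subgroup.closure_closure_coe_preimage

theorem range_sub : Set.range sS ⊆ Set.range sA := by
  rintro _ ⟨ω | i, rfl⟩
  · exact ⟨Sum.inl ω, rfl⟩
  · refine Fin.cases ⟨Sum.inr 0, rfl⟩ (fun j => ?_) i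
    rw [Fin.fin_one_eq_zero j]
    exact ⟨Sum.inr 1, rfl⟩

theorem closure_sA : Subgroup.closure (Set.range sA) = ⊤ := by
  rw [eq_top_iff, ← closure_sS]
  exact Subgroup.closure_mono range_sub

theorem sS_inv (g : G) (hg : g ∈ Set.range sS) : g⁻¹ ∈ Set.range sS := by
  obtain ⟨ω, rfl⟩ := hg
  rcases ω with ℓ | i
  · refine ⟨Sum.inl ℓ⁻¹, ?_⟩
    apply Subtype.ext
    change lamp 0 ℓ⁻¹ = (lamp 0 ℓ)⁻¹
    rw [eq_inv_iff_mul_eq_one, lamp_mul, inv_mul_cancel, lamp_one]
  · refine Fin.cases ⟨Sum.inr 1, ?_⟩ (fun j => ?_) i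
    · apply Subtype.ext
      change (sh (-1) : Wr L) = (sh 1)⁻¹
      ext p <;> simp
    · rw [Fin.fin_one_eq_zero j]
      refine ⟨Sum.inr 0, ?_⟩
      apply Subtype.ext
      change (sh 1 : Wr L) = (sh (-1))⁻¹
      ext p <;> simp

theorem submonoid_sS : Submonoid.closure (Set.range sS) = ⊤ := by
  have h := Subgroup.closure_toSubmonoid (Set.range sS)
  rw [closure_sS] at h
  have h2 : Set.range sS ∪ (Set.range sS)⁻¹ = Set.range sS := by
    apply Set.union_eq_self_of_subset_right
    intro g hg
    have := sS_inv _ hg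
    rwa [inv_inv] at this
  rw [h2] at h
  rw [← h]
  rfl

theorem submonoid_sA : Submonoid.closure (Set.range sA) = ⊤ := by
  rw [eq_top_iff, ← submonoid_sS]
  exact Submonoid.closure_mono range_sub

theorem sS_one : sS (Sum.inl 1) = 1 := Subtype.ext (lamp_one 0)

theorem sA_one : sA (Sum.inl 1) = 1 := Subtype.ext (lamp_one 0)

/-- The word. -/
def w : FreeGroup (Fin 4) :=
  ⁅⁅(FreeGroup.of (0 : Fin 4))⁻¹, (FreeGroup.of (1 : Fin 4))⁻¹⁆,
    ⁅FreeGroup.of (2 : Fin 4), FreeGroup.of (3 : Fin 4)⁆⁆

theorem lift_w (x y z t : G) : FreeGroup.lift ![x, y, z, t] w = ⁅⁅x⁻¹, y⁻¹⁆, ⁅z, t⁆⁆ := by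
  unfold w
  simp [commutatorElement_def]

theorem ind_iff (x y z t : G) : FreeGroup.lift ![x, y, z, t] w = 1 ↔
    ⁅⁅(x : Wr L)⁻¹, (y : Wr L)⁻¹⁆, ⁅(z : Wr L), (t : Wr L)⁆⁆ = 1 := by
  rw [lift_w, ← OneMemClass.coe_eq_one]
  simp only [commutatorElement_def, Subgroup.coe_mul, Subgroup.coe_inv]

theorem sat_eq {Ω : Type} [Fintype Ω] [Nonempty Ω] (σ : Ω → G) (n : ℕ) :
    satProb (unif σ) w n =
      E (law (unif (fun ω => ((σ ω : G) : Wr L))) n) (fun x =>
        E (law (unif (fun ω => ((σ ω : G) : Wr L))) n) (fun y =>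
          E (law (unif (fun ω => ((σ ω : G) : Wr L))) n) (fun z =>
            E (law (unif (fun ω => ((σ ω : G) : Wr L))) n) (fun t => ind x y z t)))) := by
  have e0 : satProb (unif σ) w n = E (law (unif σ) n) (fun x => E (law (unif σ) n) (fun y =>
      E (law (unif σ) n) (fun z => E (law (unif σ) n) (fun t =>
        ind (x : Wr L) (y : Wr L) (z : Wr L) (t : Wr L))))) := by
    rw [satProb_four]
    congr 1; funext x; congr 1; funext y; congr 1; funext z; congr 1; funext t
    unfold ind
    by_cases h : FreeGroup.lift ![x, y, z, t] w = 1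
    · rw [if_pos h, if_pos ((ind_iff x y z t).1 h)]
    · rw [if_neg h, if_neg (fun h' => h ((ind_iff x y z t).2 h'))]
  rw [e0]
  have h : ∀ φ : Wr L → ℝ, E (law (unif σ) n) (fun g => φ g) =
      E (law (unif (fun ω => ((σ ω : G) : Wr L))) n) φ := fun φ =>
    (E_law_map (Subgroup.subtype _) σ n φ).symm
  have e1 : ∀ x y z : Wr L, E (law (unif σ) n) (fun t => ind x y z (t : Wr L)) = _ :=
    fun x y z => h (fun t => ind x y z t)
  simp only [e1]
  have e2 : ∀ x y : Wr L, E (law (unif σ) n) (fun z =>
      E (law (unif (fun ω => ((σ ω : G) : Wr L))) n) (fun t => ind x y (z : Wr L) t)) = _ :=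
    fun x y => h (fun z => E (law (unif (fun ω => ((σ ω : G) : Wr L))) n) (fun t => ind x y z t))
  simp only [e2]
  have e3 : ∀ x : Wr L, E (law (unif σ) n) (fun y =>
      E (law (unif (fun ω => ((σ ω : G) : Wr L))) n) (fun z =>
        E (law (unif (fun ω => ((σ ω : G) : Wr L))) n) (fun t => ind x (y : Wr L) z t))) = _ :=
    fun x => h (fun y => E (law (unif (fun ω => ((σ ω : G) : Wr L))) n) (fun z =>
      E (law (unif (fun ω => ((σ ω : G) : Wr L))) n) (fun t => ind x y z t)))
  simp only [e3]
  exact h (fun x => E (law (unif (fun ω => ((σ ω : G) : Wr L))) n) (fun y =>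
    E (law (unif (fun ω => ((σ ω : G) : Wr L))) n) (fun z =>
      E (law (unif (fun ω => ((σ ω : G) : Wr L))) n) (fun t => ind x y z t))))

theorem sat_S (n : ℕ) : satProb (unif sS) w n = probS L n := sat_eq sS n

theorem sat_A (n : ℕ) : satProb (unif sA) w n = probA L n := sat_eq sA n

theorem exists_noncomm : ∃ a b : L, a * b ≠ b * a := by decide

theorem tendsto_S : Tendsto (fun n => satProb (unif sS) w n) atTop (𝓝 0) := by
  obtain ⟨a, b, hab⟩ := exists_noncomm
  simp only [sat_S]
  exact tendsto_probS hab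

theorem w_ne_one : w ≠ 1 := by
  intro h
  have h1 : ∀ n, satProb (unif sS) w n = 1 := by
    intro n
    rw [satProb_four, h]
    simp only [map_one, if_true]
    simp only [E_law_one (E_unif_one sS)]
  have h2 := tendsto_S
  simp only [h1] at h2
  have := tendsto_nhds_unique h2 tendsto_const_nhds
  norm_num at this

theorem satProb_le_one {Ω : Type} [Fintype Ω] [Nonempty Ω] (σ : Ω → G) (n : ℕ) :
    satProb (unif σ) w n ≤ 1 := by
  have hn := law_nonneg (unif_nonneg σ) n
  have h1 := E_law_one (E_unif_one σ) n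
  rw [satProb_four]
  have key : ∀ φ : G → ℝ, (∀ g, φ g ≤ 1) → E (law (unif σ) n) φ ≤ 1 := by
    intro φ hφ
    rw [← h1]
    exact E_mono hn hφ
  refine key _ (fun x => key _ (fun y => key _ (fun z => key _ (fun t => ?_))))
  split_ifs <;> norm_num

/-- There are a finitely generated group `G`, a nontrivial word `w` in four variables and two
step distributions `μ` and `ν` of random walk measures on `G` such that the probability of `w` is
zero with respect to `μ` and positive with respect to `ν`. Moreover, the supports of `μ` and `ν`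
generate `G` as a monoid, and `μ` and `ν` are the uniform measures on these supports. For `μ` the
probability of `w` after `n` steps tends to zero; for `ν` it is at least `1 / 1296` for all
`n ≥ 1`. -/
theorem result :
    ∃ (G : Type) (_ : Group G), Group.FG G ∧ ∃ w : FreeGroup (Fin 4), w ≠ 1 ∧
      ∃ μ ν : G →₀ ℝ, IsStep μ ∧ IsStep ν ∧
        Submonoid.closure (μ.support : Set G) = ⊤ ∧ Submonoid.closure (ν.support : Set G) = ⊤ ∧
        Pr μ w = 0 ∧ 0 < Pr ν w ∧
        Tendsto (fun n => satProb μ w n) atTop (𝓝 0) ∧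
        ∀ n, 1 ≤ n → 1 / 1296 ≤ satProb ν w n := by
  refine ⟨G, inferInstance, ?_, w, w_ne_one, unif sS, unif sA,
    isStep_unif sS closure_sS _ sS_one, isStep_unif sA closure_sA _ sA_one, ?_, ?_, ?_, ?_,
    tendsto_S, ?_⟩
  · rw [Group.fg_iff]
    exact ⟨Set.range sS, closure_sS, Set.finite_range _⟩
  · rw [support_unif]
    exact submonoid_sS
  · rw [support_unif]
    exact submonoid_sA
  · exact tendsto_S.limsup_eq
  · have hcard : (Fintype.card L : ℝ) = 6 := by
      have : Fintype.card L = 6 := by decide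
      rw [this]; norm_num
    have hb : ∀ n, 1 / 1296 ≤ satProb (unif sA) w (n + 1) := by
      intro n
      rw [sat_A]
      refine le_trans ?_ (le_probA n)
      rw [hcard]
      norm_num
    have h1 : (1 : ℝ) / 1296 ≤ Pr (unif sA) w := by
      unfold Pr
      apply le_limsup_of_frequently_le
      · apply Eventually.frequently
        rw [eventually_atTop]
        refine ⟨1, fun n hn => ?_⟩
        obtain ⟨m, rfl⟩ := Nat.exists_eq_add_of_le' hn
        exact hb m
      · exact ⟨1, Filter.eventually_map.2 (Eventually.of_forall (fun n => satProb_le_one sA n))⟩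
    linarith
  · intro n hn
    obtain ⟨m, rfl⟩ := Nat.exists_eq_add_of_le' hn
    have hcard : (Fintype.card L : ℝ) = 6 := by
      have : Fintype.card L = 6 := by decide
      rw [this]; norm_num
    rw [sat_A]
    refine le_trans ?_ (le_probA m)
    rw [hcard]
    norm_num

end Pool.Agent.Results.MP_b50549_al.GeneratingSet
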